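import Mathlib
import Pool.Agent.W786.Ls.Cv
set_option autoImplicit false

namespace Pool.Agent.W578.LS

open MeasureTheory Set Complex
open scoped ENNReal NNReal Pointwise
open Pool.Agent.W786.Ls

/-- Tonelli for products -/
lemma lint_prod : ∀ (m : ℕ) (f : Fin m → ℝ → ℝ≥0∞), (∀ j, Measurable (f j)) →
    ∫⁻ x : Fin m → ℝ, ∏ j, f j (x j) = ∏ j, ∫⁻ y, f j y := by
  intro m
  induction m with
  | zero =>
    intro f _
    simp [volume_pi, Measure.pi_of_empty]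
  | succ m ih =>
    intro f hf
    have h1 := (volume_preserving_piFinSuccAbove (fun _ : Fin (m + 1) => ℝ) 0).symm
    have h2 := h1.lintegral_comp_emb (MeasurableEquiv.measurableEmbedding _)
      (fun x : Fin (m + 1) → ℝ => ∏ j, f j (x j))
    rw [← h2, Fin.prod_univ_succ]
    have h3 : ∀ p : ℝ × (Fin m → ℝ), ∏ j, f j ((MeasurableEquiv.piFinSuccAbove
        (fun _ : Fin (m + 1) => ℝ) 0).symm p j) = f 0 p.1 * ∏ j : Fin m, f j.succ (p.2 j) := by
      intro p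
      rw [Fin.prod_univ_succ]
      simp [MeasurableEquiv.piFinSuccAbove]
    simp only [h3]
    have h4 : (volume : Measure (ℝ × (Fin m → ℝ))) = volume.prod volume := rfl
    have h5 := lintegral_prod_mul (μ := (volume : Measure ℝ)) (ν := (volume : Measure (Fin m → ℝ)))
      (f := f 0) (g := fun y => ∏ j : Fin m, f j.succ (y j)) (hf 0).aemeasurable
      (Finset.measurable_prod _ fun j _ => (hf j.succ).comp (measurable_pi_apply j)).aemeasurable
    rw [ih (fun j => f j.succ) (fun j => hf j.succ)] at h5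
    exact h5

/-- the basis `2 e_i` -/
noncomputable def bb (n : ℕ) : Module.Basis (Fin n) ℝ (Fin n → ℝ) :=
  (Pi.basisFun ℝ (Fin n)).isUnitSMul (w := fun _ => (2 : ℝ)) (fun _ => isUnit_iff_ne_zero.2 two_ne_zero)

lemma bb_apply (n : ℕ) (i : Fin n) : bb n i = Pi.single i (2 : ℝ) := by
  unfold bb
  rw [Module.Basis.isUnitSMul_apply]
  simp only [Pi.basisFun_apply]
  ext j
  by_cases h : j = i
  · subst h; simp
  · simp [h]

lemma bb_repr (n : ℕ) (v : Fin n → ℝ) (i : Fin n) : (bb n).repr v i = v i / 2 := by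
  have h : v = ∑ i, (v i / 2) • bb n i := by
    ext j
    simp [bb_apply, Finset.sum_apply, Pi.single_apply]
  conv_lhs => rw [h]
  rw [Module.Basis.repr_sum_self]

/-- translates of the cube are fundamental domains -/
lemma fd (n : ℕ) (w : Fin n → ℝ) :
    IsAddFundamentalDomain (Submodule.span ℤ (Set.range (bb n))).toAddSubgroup
      {x : Fin n → ℝ | ∀ i, w i ≤ x i ∧ x i < w i + 2} volume := by
  have h := ZSpan.isAddFundamentalDomain' (bb n) volume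
  have h2 := h.vadd_of_comm w
  have hs : {x : Fin n → ℝ | ∀ i, w i ≤ x i ∧ x i < w i + 2} =
      w +ᵥ ZSpan.fundamentalDomain (bb n) := by
   ext x
   rw [Set.mem_vadd_set_iff_neg_vadd_mem]
   simp only [ZSpan.mem_fundamentalDomain, bb_repr, mem_setOf_eq, vadd_eq_add, Pi.add_apply,
    Pi.neg_apply, mem_Ico]
   refine forall_congr' fun i => ?_
   constructor
   · rintro ⟨h1, h2⟩
     constructor <;> linarith
   · rintro ⟨h1, h2⟩
     constructor <;> linarith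
  rw [hs]
  exact h2

/-- invariance under translations -/
lemma shift (n : ℕ) (F : (Fin n → ℝ) → ℝ≥0∞)
    (hF : ∀ (x : Fin n → ℝ) (i : Fin n), F (x + Pi.single i 2) = F x) (w : Fin n → ℝ) :
    ∫⁻ α in CB n, F (α - w) = ∫⁻ α in CB n, F α := by
  have hCB : CB n = {x : Fin n → ℝ | ∀ i, (fun _ => (-1 : ℝ)) i ≤ x i ∧ x i < (fun _ => (-1 : ℝ)) i + 2} := by
    ext x
    simp only [CB, mem_pi, mem_univ, true_implies, mem_Ico, mem_setOf_eq]
    norm_num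
  have hinv : ∀ (g : (Submodule.span ℤ (Set.range (bb n))).toAddSubgroup) (x : Fin n → ℝ),
      F (g +ᵥ x) = F x := by
    rintro ⟨g, hg⟩ x
    change F (g + x) = F x
    have hg' : g ∈ Submodule.span ℤ (Set.range (bb n)) := hg
    clear hg
    revert x
    refine Submodule.span_induction (p := fun g _ => ∀ x, F (g + x) = F x) ?_ ?_ ?_ ?_ hg'
    · rintro _ ⟨i, rfl⟩ x
      rw [bb_apply, add_comm]
      exact hF x i
    · intro x; rw [zero_add]
    · intro a b _ _ ha hb x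
      rw [add_assoc, ha, hb]
    · intro a g _ hg x
      induction a using Int.induction_on with
      | zero => simp
      | succ k ih => rw [add_smul, one_smul, add_comm _ g, add_assoc, hg, ih]
      | pred k ih =>
        rw [← ih, ← hg (((-(k : ℤ) - 1) • g) + x)]
        congr 1
        rw [sub_smul, one_smul]
        abel
  have hmp : MeasurePreserving (fun α : Fin n → ℝ => α - w) volume volume :=
    measurePreserving_sub_right volume w
  have hme : MeasurableEmbedding (fun α : Fin n → ℝ => α - w) :=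
    (MeasurableEquiv.subRight w).measurableEmbedding
  have h1 : CB n = (fun α : Fin n → ℝ => α - w) ⁻¹'
      {x : Fin n → ℝ | ∀ i, (-1 - w i : ℝ) ≤ x i ∧ x i < (-1 - w i) + 2} := by
    rw [hCB]
    ext x
    simp only [mem_setOf_eq, mem_preimage, Pi.sub_apply]
    refine forall_congr' fun i => ?_
    constructor
    · rintro ⟨h1, h2⟩
      constructor <;> linarith
    · rintro ⟨h1, h2⟩
      constructor <;> linarith
  have h2 : ∫⁻ α in CB n, F (α - w) =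
      ∫⁻ α in {x : Fin n → ℝ | ∀ i, (-1 - w i : ℝ) ≤ x i ∧ x i < (-1 - w i) + 2}, F α := by
    conv_lhs => rw [h1]
    exact hmp.setLIntegral_comp_preimage_emb hme F _
  rw [h2]
  haveI : Countable (Submodule.span ℤ (Set.range (bb n))).toAddSubgroup :=
    inferInstanceAs (Countable (Submodule.span ℤ (Set.range (bb n))))
  have h3 := (fd n (fun i => -1 - w i)).setLIntegral_eq (fd n (fun _ => -1)) F hinv
  rw [hCB]
  exact h3

/-- difference of products -/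
lemma prod_diff {ι : Type*} (s : Finset ι) (x y : ι → ℂ) (B δ : ℝ) (hB : 0 ≤ B) (hδ : 0 ≤ δ)
    (hx : ∀ i ∈ s, ‖x i‖ ≤ B) (hy : ∀ i ∈ s, ‖y i‖ ≤ B) (hxy : ∀ i ∈ s, ‖x i - y i‖ ≤ B * δ) :
    ‖∏ i ∈ s, x i - ∏ i ∈ s, y i‖ ≤ s.card * B ^ s.card * δ := by
  classical
  induction s using Finset.induction_on with
  | empty => simp
  | insert a s ha ih =>
    rw [Finset.prod_insert ha, Finset.prod_insert ha, Finset.card_insert_of_notMem ha]
    have h1 := ih (fun i hi => hx i (Finset.mem_insert_of_mem hi))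
      (fun i hi => hy i (Finset.mem_insert_of_mem hi))
      (fun i hi => hxy i (Finset.mem_insert_of_mem hi))
    have h2 : ‖∏ i ∈ s, y i‖ ≤ B ^ s.card := by
      rw [norm_prod]
      calc ∏ i ∈ s, ‖y i‖ ≤ ∏ i ∈ s, B := Finset.prod_le_prod (fun i _ => norm_nonneg _)
            (fun i hi => hy i (Finset.mem_insert_of_mem hi))
        _ = B ^ s.card := by rw [Finset.prod_const]
    have h3 : x a * ∏ i ∈ s, x i - y a * ∏ i ∈ s, y i =
        x a * (∏ i ∈ s, x i - ∏ i ∈ s, y i) + (x a - y a) * ∏ i ∈ s, y i := by ring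
    rw [h3]
    refine (norm_add_le _ _).trans ?_
    rw [norm_mul, norm_mul]
    have hxa := hx a (Finset.mem_insert_self _ _)
    have hxya := hxy a (Finset.mem_insert_self _ _)
    calc ‖x a‖ * ‖∏ i ∈ s, x i - ∏ i ∈ s, y i‖ + ‖x a - y a‖ * ‖∏ i ∈ s, y i‖
        ≤ B * (s.card * B ^ s.card * δ) + (B * δ) * B ^ s.card := by gcongr
      _ = _ := by push_cast; ring

/-- the formula for the extension operator on the cube -/
lemma TT_eq {n : ℕ} (t : ℝ) (S : Finset (Fin n → ℤ)) (c : (Fin n → ℤ) → ℂ) (y : Fin n → ℝ) :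
    TT t S c y = ∑ k ∈ S, c k * ∏ j, ph1 t (y j + (k j : ℝ) / 2) := by
  have hpt : ∀ (k : Fin n → ℤ) (v : Fin n → ℝ),
      ek k v * em y t v = ∏ j, qe (y j + (k j : ℝ) / 2) t (v j) := by
    intro k v
    unfold ek W786.Ls.em qe
    rw [← Complex.exp_sum, ← Complex.exp_sum, ← Complex.exp_add]
    congr 1
    push_cast
    rw [Finset.mul_sum, ← Finset.sum_add_distrib]
    refine Finset.sum_congr rfl fun j _ => ?_
    ring
  have hcont : ∀ a : ℝ, Continuous (fun v : ℝ => qe a t v) := by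
    intro a
    unfold qe
    fun_prop
  have hint : ∀ (k : Fin n → ℤ), ∫ v in CB n, ek k v * em y t v =
      ∏ j, ph1 t (y j + (k j : ℝ) / 2) := by
    intro k
    simp_rw [hpt]
    have h1 : (volume : Measure (Fin n → ℝ)).restrict (CB n) =
        Measure.pi (fun _ => (volume : Measure ℝ).restrict (Ico (-1) 1)) := by
      unfold CB
      rw [volume_pi, Measure.restrict_pi_pi]
    rw [h1]
    rw [integral_fintype_prod_eq_prod (fun (j : Fin n) (v : ℝ) => qe (y j + (k j : ℝ) / 2) t v)]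
    rfl
  have hci : ∀ k : Fin n → ℤ, Integrable (fun v : Fin n → ℝ => ek k v * em y t v)
      (volume.restrict (CB n)) := by
    intro k
    have hc : Continuous (fun v : Fin n → ℝ => ek k v * em y t v) := by
      unfold ek W786.Ls.em qe
      fun_prop
    have hb : CB n ⊆ Icc (fun _ => (-1 : ℝ)) (fun _ => 1) := by
      intro x hx
      constructor
      · intro i; exact (hx i (mem_univ i)).1
      · intro i; exact (hx i (mem_univ i)).2.le
    have := (hc.continuousOn (s := Icc (fun _ : Fin n => (-1 : ℝ)) (fun _ => 1))).integrableOn_compact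
      (μ := volume) isCompact_Icc
    exact this.mono_set hb
  unfold TT trig
  have h0 : ∀ v : Fin n → ℝ, (∑ k ∈ S, c k * ek k v) * em y t v =
      ∑ k ∈ S, c k * (ek k v * em y t v) := by
    intro v
    rw [Finset.sum_mul]
    refine Finset.sum_congr rfl fun k _ => by ring
  simp_rw [h0]
  rw [integral_finsetSum _ (fun k _ => (hci k).const_mul (c k))]
  refine Finset.sum_congr rfl fun k _ => ?_
  rw [integral_const_mul, hint]

/-- the modulated kernel -/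
noncomputable def aa (t z : ℝ) : ℂ :=
  cexp (Real.pi * I * ((z ^ 2 / (2 * t) : ℝ) : ℂ)) * ph1 t z

lemma norm_cexp_pi (x : ℝ) : ‖cexp (Real.pi * I * (x : ℂ))‖ = 1 := by
  have : (Real.pi * I * (x : ℂ)) = ((Real.pi * x : ℝ) : ℂ) * I := by push_cast; ring
  rw [this, Complex.norm_exp_ofReal_mul_I]

lemma norm_aa (t z : ℝ) : ‖aa t z‖ = ‖ph1 t z‖ := by
  unfold aa
  rw [norm_mul, norm_cexp_pi, one_mul]

lemma ph1_eq (t z : ℝ) : ph1 t z = cexp (Real.pi * I * ((-(z ^ 2 / (2 * t)) : ℝ) : ℂ)) * aa t z := by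
  unfold aa
  rw [← mul_assoc, ← Complex.exp_add]
  have : (Real.pi * I * ((-(z ^ 2 / (2 * t)) : ℝ) : ℂ) + Real.pi * I * ((z ^ 2 / (2 * t) : ℝ) : ℂ)) = 0 := by
    push_cast; ring
  rw [this, Complex.exp_zero, one_mul]

/-- the phase factor in `y` -/
noncomputable def uu {n : ℕ} (t : ℝ) (y : Fin n → ℝ) : ℂ :=
  cexp (Real.pi * I * ((∑ j, -(y j ^ 2 / (2 * t)) : ℝ) : ℂ))

lemma norm_uu {n : ℕ} (t : ℝ) (y : Fin n → ℝ) : ‖uu t y‖ = 1 := norm_cexp_pi _

lemma prod_ph1 {n : ℕ} (t : ℝ) (ht : 1 ≤ t) (k : Fin n → ℤ) (α y : Fin n → ℝ) :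
    ek k α * ∏ j, ph1 t (y j + (k j : ℝ) / 2) =
      uu t y * (ek k (fun j => α j - y j / (2 * t)) *
        ∏ j, (cexp (Real.pi * I * ((-((k j : ℝ) ^ 2 / (8 * t)) : ℝ) : ℂ)) *
          aa t (y j + (k j : ℝ) / 2))) := by
  have ht0 : (t : ℂ) ≠ 0 := by
    have : t ≠ 0 := by linarith
    exact_mod_cast this
  simp_rw [ph1_eq t]
  rw [Finset.prod_mul_distrib, Finset.prod_mul_distrib, ← mul_assoc, ← mul_assoc, ← mul_assoc]
  congr 1
  unfold ek uu
  rw [← Complex.exp_sum, ← Complex.exp_sum, ← Complex.exp_add, ← Complex.exp_add, ← Complex.exp_add]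
  congr 1
  push_cast
  rw [Finset.mul_sum, Finset.mul_sum, Finset.mul_sum, ← Finset.sum_add_distrib,
    ← Finset.sum_add_distrib, ← Finset.sum_add_distrib]
  refine Finset.sum_congr rfl fun j _ => ?_
  field_simp
  ring

lemma abs_le_of_norm {n : ℕ} (k : Fin n → ℤ) (N : ℝ) (hk : ‖k‖ ≤ N) (j : Fin n) :
    |(k j : ℝ)| ≤ N := by
  have h := norm_le_pi_norm k j
  rw [Int.norm_eq_abs] at h
  exact h.trans hk

/-- the error of one term -/
lemma term_diff {n : ℕ} (C1 : ℝ) (hC1 : 1 ≤ C1) (t : ℝ) (ht : 1 ≤ t)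
    (hb : ∀ z, ‖ph1 t z‖ ≤ C1 * t ^ (-(1 / 2) : ℝ))
    (hl : ∀ z w, ‖aa t z - aa t w‖ ≤ |z - w| / t) (N : ℝ) (hN : 1 ≤ N)
    (k : Fin n → ℤ) (hk : ‖k‖ ≤ N) (y : Fin n → ℝ) :
    ‖∏ j, (cexp (Real.pi * I * ((-((k j : ℝ) ^ 2 / (8 * t)) : ℝ) : ℂ)) *
          aa t (y j + (k j : ℝ) / 2)) - ∏ j, aa t (y j)‖ ≤
      n * (C1 * t ^ (-(1 / 2) : ℝ)) ^ n * (N ^ 2 * t ^ (-(1 / 2) : ℝ)) := by
  have ht0 : 0 < t := by linarith
  have hs0 : 0 < t ^ (-(1 / 2) : ℝ) := Real.rpow_pos_of_pos ht0 _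
  have hs1 : t ^ (-(1 / 2) : ℝ) ≤ 1 := Real.rpow_le_one_of_one_le_of_nonpos ht (by norm_num)
  have hss : t ^ (-(1 / 2) : ℝ) * t ^ (-(1 / 2) : ℝ) = t⁻¹ := by
    rw [← Real.rpow_add ht0, ← Real.rpow_neg_one]
    norm_num
  have h := prod_diff (Finset.univ : Finset (Fin n))
    (fun j => cexp (Real.pi * I * ((-((k j : ℝ) ^ 2 / (8 * t)) : ℝ) : ℂ)) *
          aa t (y j + (k j : ℝ) / 2)) (fun j => aa t (y j)) (C1 * t ^ (-(1 / 2) : ℝ))
    (N ^ 2 * t ^ (-(1 / 2) : ℝ)) (by positivity) (by positivity) ?_ ?_ ?_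
  · rw [Finset.card_univ, Fintype.card_fin] at h
    exact h
  · intro j _
    rw [norm_mul, norm_cexp_pi, one_mul, norm_aa]
    exact hb _
  · intro j _
    rw [norm_aa]
    exact hb _
  · intro j _
    have hkj := abs_le_of_norm k N hk j
    have h1 : cexp (Real.pi * I * ((-((k j : ℝ) ^ 2 / (8 * t)) : ℝ) : ℂ)) *
          aa t (y j + (k j : ℝ) / 2) - aa t (y j) =
        (cexp (Real.pi * I * ((-((k j : ℝ) ^ 2 / (8 * t)) : ℝ) : ℂ)) - 1) *
          aa t (y j + (k j : ℝ) / 2) + (aa t (y j + (k j : ℝ) / 2) - aa t (y j)) := by ring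
    rw [h1]
    refine (norm_add_le _ _).trans ?_
    rw [norm_mul, norm_aa]
    have h2 : ‖cexp (Real.pi * I * ((-((k j : ℝ) ^ 2 / (8 * t)) : ℝ) : ℂ)) - 1‖ ≤
        Real.pi * (N ^ 2 / (8 * t)) := by
      have h3 := Real.norm_exp_I_mul_ofReal_sub_one_le (x := Real.pi * (-((k j : ℝ) ^ 2 / (8 * t))))
      have h4 : (Real.pi * I * ((-((k j : ℝ) ^ 2 / (8 * t)) : ℝ) : ℂ)) =
          I * ((Real.pi * (-((k j : ℝ) ^ 2 / (8 * t))) : ℝ) : ℂ) := by push_cast; ring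
      rw [h4]
      refine h3.trans ?_
      rw [Real.norm_eq_abs, abs_mul, abs_neg, abs_of_pos Real.pi_pos,
        abs_of_nonneg (by positivity)]
      have h5 : (k j : ℝ) ^ 2 ≤ N ^ 2 := by
        rw [← sq_abs]
        exact pow_le_pow_left₀ (abs_nonneg _) hkj 2
      gcongr
    have h6 : ‖aa t (y j + (k j : ℝ) / 2) - aa t (y j)‖ ≤ N / (2 * t) := by
      refine (hl _ _).trans ?_
      have : y j + (k j : ℝ) / 2 - y j = (k j : ℝ) / 2 := by ring
      rw [this, abs_div, abs_of_pos (by norm_num : (0 : ℝ) < 2), div_div]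
      gcongr
    have h7 : Real.pi ≤ 4 := Real.pi_le_four
    calc ‖cexp (Real.pi * I * ((-((k j : ℝ) ^ 2 / (8 * t)) : ℝ) : ℂ)) - 1‖ *
          ‖ph1 t (y j + (k j : ℝ) / 2)‖ + ‖aa t (y j + (k j : ℝ) / 2) - aa t (y j)‖
        ≤ (Real.pi * (N ^ 2 / (8 * t))) * (C1 * 1) + N / (2 * t) := by
          gcongr
          exact (hb _).trans (by gcongr)
      _ ≤ (4 * (N ^ 2 / (8 * t))) * (C1 * 1) + (C1 * N ^ 2) / (2 * t) := by
          gcongr
          nlinarith [sq_nonneg N, sq_nonneg (N - 1)]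
      _ = C1 * N ^ 2 * t⁻¹ := by
          field_simp
          ring
      _ = C1 * t ^ (-(1 / 2) : ℝ) * (N ^ 2 * t ^ (-(1 / 2) : ℝ)) := by
          rw [← hss]; ring

lemma card_le {n : ℕ} (S : Finset (Fin n → ℤ)) (N : ℝ) (hN : 1 ≤ N) (hS : ∀ k ∈ S, ‖k‖ ≤ N) :
    (S.card : ℝ) ≤ (3 * N) ^ n := by
  have h1 : S ⊆ Fintype.piFinset (fun _ : Fin n => Finset.Icc (-⌊N⌋) ⌊N⌋) := by
    intro k hk
    rw [Fintype.mem_piFinset]
    intro j
    have h2 := abs_le_of_norm k N (hS k hk) j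
    rw [Finset.mem_Icc]
    rw [abs_le] at h2
    constructor
    · have : -k j ≤ ⌊N⌋ := Int.le_floor.2 (by push_cast; linarith)
      linarith
    · exact Int.le_floor.2 h2.2
  have h3 := Finset.card_le_card h1
  rw [Fintype.card_piFinset_const, Int.card_Icc] at h3
  have hf0 : 0 ≤ ⌊N⌋ := Int.floor_nonneg.2 (by linarith)
  have h4 : (((⌊N⌋ + 1 - -⌊N⌋).toNat : ℕ) : ℝ) ≤ 3 * N := by
    have h5 : (((⌊N⌋ + 1 - -⌊N⌋).toNat : ℕ) : ℤ) = ⌊N⌋ + 1 - -⌊N⌋ :=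
      Int.toNat_of_nonneg (by omega)
    have h6 : (((⌊N⌋ + 1 - -⌊N⌋).toNat : ℕ) : ℝ) = (⌊N⌋ : ℝ) + 1 - -(⌊N⌋ : ℝ) := by
      exact_mod_cast h5
    rw [h6]
    have := Int.floor_le N
    linarith
  calc (S.card : ℝ) ≤ (((⌊N⌋ + 1 - -⌊N⌋).toNat ^ n : ℕ) : ℝ) := by exact_mod_cast h3
    _ = (((⌊N⌋ + 1 - -⌊N⌋).toNat : ℕ) : ℝ) ^ n := by push_cast; rfl
    _ ≤ (3 * N) ^ n := by gcongr

lemma sum_le_l2 {n : ℕ} (S : Finset (Fin n → ℤ)) (c : (Fin n → ℤ) → ℂ) :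
    ∑ k ∈ S, ‖c k‖ₑ ≤ ENNReal.ofReal ((S.card : ℝ) ^ (1 / 2 : ℝ)) * l2 S c := by
  have h := ENNReal.inner_le_Lp_mul_Lq S (fun k => ‖c k‖ₑ) (fun _ => 1)
    (p := 2) (q := 2) ⟨by norm_num, by norm_num, by norm_num⟩
  simp only [mul_one, ENNReal.one_rpow, Finset.sum_const, nsmul_eq_mul] at h
  refine h.trans ?_
  rw [mul_comm]
  unfold l2
  have e1 : ∀ k, ‖c k‖ₑ ^ (2 : ℝ) = ‖c k‖ₑ ^ 2 := fun k => ENNReal.rpow_two _
  simp only [e1]
  gcongr
  rw [← ENNReal.ofReal_rpow_of_nonneg (by positivity) (by norm_num), ENNReal.ofReal_natCast]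

lemma num_bound (n : ℕ) (C1 N t : ℝ) (hC1 : 1 ≤ C1) (hN : 1 ≤ N) (ht : N ^ ((n : ℝ) + 4) ≤ t)
    (ht1 : 1 ≤ t) (K : ℝ) (hK0 : 0 ≤ K) (hK : K ≤ (3 * N) ^ n) :
    n * (C1 * t ^ (-(1 / 2) : ℝ)) ^ n * (N ^ 2 * t ^ (-(1 / 2) : ℝ)) * K ^ (1 / 2 : ℝ) ≤
      n * C1 ^ n * 3 ^ n * t ^ (-(n : ℝ) / 2) := by
  have ht0 : 0 < t := by linarith
  have hN0 : 0 < N := by linarith
  have h1 : K ^ (1 / 2 : ℝ) ≤ 3 ^ n * N ^ ((n : ℝ) / 2) := by
    calc K ^ (1 / 2 : ℝ) ≤ ((3 * N) ^ n) ^ (1 / 2 : ℝ) := by gcongr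
      _ = (3 ^ n) ^ (1 / 2 : ℝ) * (N ^ n) ^ (1 / 2 : ℝ) := by
          rw [mul_pow, Real.mul_rpow (by positivity) (by positivity)]
      _ ≤ (3 ^ n) ^ (1 : ℝ) * (N ^ n) ^ (1 / 2 : ℝ) := by
          have h3 : (1 : ℝ) ≤ 3 ^ n := one_le_pow₀ (by norm_num)
          gcongr
          norm_num
      _ = 3 ^ n * N ^ ((n : ℝ) / 2) := by
          rw [Real.rpow_one, ← Real.rpow_natCast N n, ← Real.rpow_mul hN0.le]
          congr 2
          ring
  have h2 : N ^ 2 * N ^ ((n : ℝ) / 2) ≤ t ^ (1 / 2 : ℝ) := by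
    have h3 : N ^ 2 * N ^ ((n : ℝ) / 2) = (N ^ ((n : ℝ) + 4)) ^ (1 / 2 : ℝ) := by
      rw [← Real.rpow_mul hN0.le, ← Real.rpow_two, ← Real.rpow_add hN0]
      congr 1
      ring
    rw [h3]
    gcongr
  have h4 : t ^ (1 / 2 : ℝ) * t ^ (-(1 / 2) : ℝ) = 1 := by
    rw [← Real.rpow_add ht0]
    norm_num
  have h5 : (t ^ (-(1 / 2) : ℝ)) ^ n = t ^ (-(n : ℝ) / 2) := by
    rw [← Real.rpow_natCast, ← Real.rpow_mul ht0.le]
    congr 1
    ring
  calc n * (C1 * t ^ (-(1 / 2) : ℝ)) ^ n * (N ^ 2 * t ^ (-(1 / 2) : ℝ)) * K ^ (1 / 2 : ℝ)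
      ≤ n * (C1 * t ^ (-(1 / 2) : ℝ)) ^ n * (N ^ 2 * t ^ (-(1 / 2) : ℝ)) *
        (3 ^ n * N ^ ((n : ℝ) / 2)) := by gcongr
    _ = n * C1 ^ n * 3 ^ n * t ^ (-(n : ℝ) / 2) *
        ((N ^ 2 * N ^ ((n : ℝ) / 2)) * t ^ (-(1 / 2) : ℝ)) := by
        rw [mul_pow, h5]; ring
    _ ≤ n * C1 ^ n * 3 ^ n * t ^ (-(n : ℝ) / 2) *
        (t ^ (1 / 2 : ℝ) * t ^ (-(1 / 2) : ℝ)) := by gcongr
    _ = _ := by rw [h4, mul_one]

/-- the main part -/
noncomputable def MM {n : ℕ} (t : ℝ) (S : Finset (Fin n → ℤ)) (c : (Fin n → ℤ) → ℂ)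
    (α y : Fin n → ℝ) : ℂ :=
  uu t y * ((∏ j, aa t (y j)) * trig S c (fun j => α j - y j / (2 * t)))

/-- the pointwise error -/
lemma point {n : ℕ} (C1 : ℝ) (hC1 : 1 ≤ C1) (t : ℝ) (ht : 1 ≤ t)
    (hb : ∀ z, ‖ph1 t z‖ ≤ C1 * t ^ (-(1 / 2) : ℝ))
    (hl : ∀ z w, ‖aa t z - aa t w‖ ≤ |z - w| / t) (N : ℝ) (hN : 1 ≤ N)
    (hNt : N ^ ((n : ℝ) + 4) ≤ t)
    (S : Finset (Fin n → ℤ)) (c : (Fin n → ℤ) → ℂ) (hS : ∀ k ∈ S, ‖k‖ ≤ N)
    (α y : Fin n → ℝ) :
    ‖TT t S (fun k => c k * ek k α) y - MM t S c α y‖ₑ ≤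
      ENNReal.ofReal (n * C1 ^ n * 3 ^ n * t ^ (-(n : ℝ) / 2)) * l2 S c := by
  have h1 : TT t S (fun k => c k * ek k α) y - MM t S c α y =
      uu t y * ∑ k ∈ S, c k * ek k (fun j => α j - y j / (2 * t)) *
        (∏ j, (cexp (Real.pi * I * ((-((k j : ℝ) ^ 2 / (8 * t)) : ℝ) : ℂ)) *
          aa t (y j + (k j : ℝ) / 2)) - ∏ j, aa t (y j)) := by
    rw [TT_eq]
    have h2 : ∀ k : Fin n → ℤ, c k * ek k α * ∏ j, ph1 t (y j + (k j : ℝ) / 2) =
        uu t y * (c k * ek k (fun j => α j - y j / (2 * t)) *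
        ∏ j, (cexp (Real.pi * I * ((-((k j : ℝ) ^ 2 / (8 * t)) : ℝ) : ℂ)) *
          aa t (y j + (k j : ℝ) / 2))) := by
      intro k
      rw [mul_assoc, prod_ph1 t ht]
      ring
    simp_rw [h2]
    rw [← Finset.mul_sum]
    unfold MM trig
    rw [← mul_sub]
    congr 1
    rw [Finset.mul_sum, ← Finset.sum_sub_distrib]
    refine Finset.sum_congr rfl fun k _ => ?_
    ring
  have hek : ∀ (k : Fin n → ℤ) (v : Fin n → ℝ), ‖ek k v‖ₑ = 1 := by
    intro k v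
    rw [← ofReal_norm]
    unfold ek
    rw [norm_cexp_pi]
    simp
  have huu : ‖uu t y‖ₑ = 1 := by
    rw [← ofReal_norm, norm_uu]
    simp
  rw [h1, enorm_mul, huu, one_mul]
  have ht0 : 0 < t := by linarith
  calc ‖∑ k ∈ S, c k * ek k (fun j => α j - y j / (2 * t)) *
        (∏ j, (cexp (Real.pi * I * ((-((k j : ℝ) ^ 2 / (8 * t)) : ℝ) : ℂ)) *
          aa t (y j + (k j : ℝ) / 2)) - ∏ j, aa t (y j))‖ₑ
      ≤ ∑ k ∈ S, ‖c k * ek k (fun j => α j - y j / (2 * t)) *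
        (∏ j, (cexp (Real.pi * I * ((-((k j : ℝ) ^ 2 / (8 * t)) : ℝ) : ℂ)) *
          aa t (y j + (k j : ℝ) / 2)) - ∏ j, aa t (y j))‖ₑ := enorm_sum_le _ _
    _ ≤ ∑ k ∈ S, ‖c k‖ₑ * ENNReal.ofReal (n * (C1 * t ^ (-(1 / 2) : ℝ)) ^ n *
          (N ^ 2 * t ^ (-(1 / 2) : ℝ))) := by
        refine Finset.sum_le_sum fun k hk => ?_
        rw [enorm_mul, enorm_mul, hek, mul_one]
        gcongr
        rw [← ofReal_norm]
        exact ENNReal.ofReal_le_ofReal (term_diff C1 hC1 t ht hb hl N hN k (hS k hk) y)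
    _ = ENNReal.ofReal (n * (C1 * t ^ (-(1 / 2) : ℝ)) ^ n *
          (N ^ 2 * t ^ (-(1 / 2) : ℝ))) * ∑ k ∈ S, ‖c k‖ₑ := by
        rw [← Finset.sum_mul, mul_comm]
    _ ≤ ENNReal.ofReal (n * (C1 * t ^ (-(1 / 2) : ℝ)) ^ n *
          (N ^ 2 * t ^ (-(1 / 2) : ℝ))) *
          (ENNReal.ofReal ((S.card : ℝ) ^ (1 / 2 : ℝ)) * l2 S c) := by
        gcongr
        exact sum_le_l2 S c
    _ = ENNReal.ofReal (n * (C1 * t ^ (-(1 / 2) : ℝ)) ^ n *
          (N ^ 2 * t ^ (-(1 / 2) : ℝ)) * (S.card : ℝ) ^ (1 / 2 : ℝ)) * l2 S c := by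
        rw [← mul_assoc, ← ENNReal.ofReal_mul (by positivity)]
    _ ≤ _ := by
        refine mul_le_mul' (ENNReal.ofReal_le_ofReal ?_) le_rfl
        exact num_bound n C1 N t hC1 hN hNt ht _ (by positivity) (card_le S N hN hS)

lemma vol_CB (n : ℕ) : volume (CB n) = 2 ^ n := by
  unfold CB
  rw [volume_pi_pi]
  simp only [Real.volume_Ico, Finset.prod_const, Finset.card_univ, Fintype.card_fin]
  norm_num

lemma vol_Y (n : ℕ) (t : ℝ) :
    volume (Set.pi univ (fun _ : Fin n => Icc (-4 * t) (4 * t))) = ENNReal.ofReal (8 * t) ^ n := by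
  rw [volume_pi_pi]
  simp only [Real.volume_Icc, Finset.prod_const, Finset.card_univ, Fintype.card_fin]
  congr 2
  ring

lemma prod_Y (n : ℕ) (t : ℝ) (g : ℝ → ℝ≥0∞) (hg : Measurable g) :
    ∫⁻ y in Set.pi univ (fun _ : Fin n => Icc (-4 * t) (4 * t)), ∏ j, g (y j) =
      (∫⁻ y in Icc (-4 * t) (4 * t), g y) ^ n := by
  have hm : MeasurableSet (Set.pi univ (fun _ : Fin n => Icc (-4 * t) (4 * t))) :=
    MeasurableSet.univ_pi fun _ => measurableSet_Icc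
  rw [← lintegral_indicator hm]
  have h1 : ∀ y : Fin n → ℝ, (Set.pi univ (fun _ : Fin n => Icc (-4 * t) (4 * t))).indicator
      (fun y => ∏ j, g (y j)) y = ∏ j, (Icc (-4 * t) (4 * t)).indicator g (y j) := by
    intro y
    by_cases hy : y ∈ Set.pi univ (fun _ : Fin n => Icc (-4 * t) (4 * t))
    · rw [indicator_of_mem hy]
      refine Finset.prod_congr rfl fun j _ => ?_
      rw [indicator_of_mem (hy j (mem_univ j))]
    · rw [indicator_of_notMem hy]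
      have h2 : ∃ j, y j ∉ Icc (-4 * t) (4 * t) := by
        by_contra hcon
        push Not at hcon
        exact hy fun j _ => hcon j
      obtain ⟨j, hj⟩ := h2
      symm
      exact Finset.prod_eq_zero (Finset.mem_univ j) (indicator_of_notMem hj _)
  simp_rw [h1]
  rw [lint_prod n (fun _ => (Icc (-4 * t) (4 * t)).indicator g)
    (fun _ => hg.indicator measurableSet_Icc), Finset.prod_const, Finset.card_univ,
    Fintype.card_fin, lintegral_indicator measurableSet_Icc]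

lemma cont_trig {n : ℕ} (S : Finset (Fin n → ℤ)) (c : (Fin n → ℤ) → ℂ) :
    Continuous (trig S c) := by
  unfold trig ek
  fun_prop

lemma trig_per {n : ℕ} (S : Finset (Fin n → ℤ)) (c : (Fin n → ℤ) → ℂ) (x : Fin n → ℝ)
    (i : Fin n) : trig S c (x + Pi.single i 2) = trig S c x := by
  unfold trig
  refine Finset.sum_congr rfl fun k _ => ?_
  congr 1
  unfold ek
  have h1 : (∑ j, (k j : ℝ) * (x + (Pi.single i (2 : ℝ) : Fin n → ℝ)) j : ℝ) =
      (∑ j, (k j : ℝ) * x j : ℝ) + (k i : ℝ) * 2 := by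
    simp only [Pi.add_apply, mul_add, Finset.sum_add_distrib]
    congr 1
    rw [Finset.sum_eq_single i]
    · simp
    · intro b _ hb
      simp [hb]
    · simp
  rw [h1]
  have h2 : (Real.pi * I * (((∑ j, (k j : ℝ) * x j : ℝ) + (k i : ℝ) * 2 : ℝ) : ℂ)) =
      Real.pi * I * ((∑ j, (k j : ℝ) * x j : ℝ) : ℂ) + (k i : ℤ) * (2 * Real.pi * I) := by
    push_cast
    ring
  rw [h2, Complex.exp_add, Complex.exp_int_mul_two_pi_mul_I, mul_one]

/-- the integral of the main part -/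
lemma main_part {n : ℕ} (q : ℝ) (hq : 2 ≤ q) (t : ℝ) (ht : 1 ≤ t)
    (hc : Continuous (aa t)) (S : Finset (Fin n → ℤ)) (c : (Fin n → ℤ) → ℂ) :
    ∫⁻ α in CB n, ∫⁻ y in Set.pi univ (fun _ : Fin n => Icc (-4 * t) (4 * t)),
      ‖MM t S c α y‖ₑ ^ q =
    (∫⁻ y in Icc (-4 * t) (4 * t), ‖ph1 t y‖ₑ ^ q) ^ n * ∫⁻ v in CB n, ‖trig S c v‖ₑ ^ q := by
  have hq0 : 0 ≤ q := by linarith
  have huu : ∀ y : Fin n → ℝ, ‖uu t y‖ₑ = 1 := by
    intro y
    rw [← ofReal_norm, norm_uu]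
    simp
  have hph : ∀ z, ‖aa t z‖ₑ = ‖ph1 t z‖ₑ := by
    intro z
    rw [← ofReal_norm, ← ofReal_norm, norm_aa]
  have h1 : ∀ α y : Fin n → ℝ, ‖MM t S c α y‖ₑ ^ q =
      (∏ j, ‖aa t (y j)‖ₑ ^ q) * ‖trig S c (fun j => α j - y j / (2 * t))‖ₑ ^ q := by
    intro α y
    unfold MM
    rw [enorm_mul, huu, one_mul, enorm_mul, ENNReal.mul_rpow_of_nonneg _ _ hq0]
    congr 1
    have hp : ‖∏ j, aa t (y j)‖ₑ = ∏ j, ‖aa t (y j)‖ₑ := by
      rw [← ofReal_norm, norm_prod, ENNReal.ofReal_prod_of_nonneg (fun _ _ => norm_nonneg _)]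
      simp_rw [ofReal_norm]
    rw [hp, ENNReal.prod_rpow_of_nonneg hq0]
  simp_rw [h1]
  have hm1 : Measurable (fun z : ℝ => ‖aa t z‖ₑ ^ q) := hc.enorm.measurable.pow_const q
  have hm2 : Measurable (fun p : (Fin n → ℝ) × (Fin n → ℝ) =>
      (∏ j, ‖aa t (p.2 j)‖ₑ ^ q) * ‖trig S c (fun j => p.1 j - p.2 j / (2 * t))‖ₑ ^ q) := by
    refine Measurable.mul ?_ ?_
    · refine Finset.measurable_prod _ fun j _ => ?_
      exact hm1.comp ((measurable_pi_apply j).comp measurable_snd)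
    · refine Measurable.pow_const ?_ q
      refine Measurable.enorm ?_
      refine ((cont_trig S c).comp ?_).measurable
      fun_prop
  rw [lintegral_lintegral_swap (f := fun α y : Fin n → ℝ =>
      (∏ j, ‖aa t (y j)‖ₑ ^ q) * ‖trig S c (fun j => α j - y j / (2 * t))‖ₑ ^ q) hm2.aemeasurable]
  have h2 : ∀ y : Fin n → ℝ, ∫⁻ α in CB n, (∏ j, ‖aa t (y j)‖ₑ ^ q) *
      ‖trig S c (fun j => α j - y j / (2 * t))‖ₑ ^ q =
      (∏ j, ‖aa t (y j)‖ₑ ^ q) * ∫⁻ v in CB n, ‖trig S c v‖ₑ ^ q := by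
    intro y
    have hm3 : Measurable (fun α : Fin n → ℝ =>
        ‖trig S c (fun j => α j - y j / (2 * t))‖ₑ ^ q) := by
      refine Measurable.pow_const ?_ q
      refine Measurable.enorm ?_
      refine ((cont_trig S c).comp ?_).measurable
      fun_prop
    rw [lintegral_const_mul _ hm3]
    congr 1
    exact shift n (fun v => ‖trig S c v‖ₑ ^ q)
      (fun x i => by simp only [trig_per]) (fun j => y j / (2 * t))
  simp_rw [h2]
  have hm4 : Measurable (fun y : Fin n → ℝ => ∏ j, ‖aa t (y j)‖ₑ ^ q) :=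
    Finset.measurable_prod _ fun j _ => hm1.comp (measurable_pi_apply j)
  rw [lintegral_mul_const _ hm4]
  congr 1
  rw [prod_Y n t _ hm1]
  simp_rw [hph]

theorem cv2 (h : Pool.Agent.W786.Ls.Cv1Stm) : Pool.Agent.W786.Ls.Cv2Stm := by
  obtain ⟨⟨C0, hC0⟩, hL, hLow⟩ := h
  intro n q hn hq
  obtain ⟨c1, hc1, hlow⟩ := hLow q hq
  have hq0 : 0 ≤ q := by linarith
  have hq1 : 1 ≤ q := by linarith
  set C1 : ℝ≥0 := max C0 1 with hC1def
  have hC1 : (1 : ℝ) ≤ C1 := by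
    have : (1 : ℝ≥0) ≤ C1 := le_max_right _ _
    exact_mod_cast this
  have hC01 : (C0 : ℝ) ≤ C1 := by
    have : C0 ≤ C1 := le_max_left _ _
    exact_mod_cast this
  set C2 : ℝ≥0 := n * C1 ^ n * 3 ^ n with hC2
  refine ⟨c1 ^ n / 2 ^ (q - 1), 16 ^ n * C2, by positivity, ?_⟩
  intro N t S c hN hNt hS
  have ht : 1 ≤ t := le_trans (Real.one_le_rpow hN (by positivity)) hNt
  have ht0 : 0 < t := by linarith
  have hb : ∀ z, ‖ph1 t z‖ ≤ C1 * t ^ (-(1 / 2) : ℝ) := fun z =>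
    (hC0 t z ht).trans (by gcongr)
  have hl : ∀ z w, ‖aa t z - aa t w‖ ≤ |z - w| / t := fun z w => hL t z w ht
  have hc : Continuous (aa t) := by
    have : LipschitzWith ⟨1 / t, by positivity⟩ (aa t) := by
      refine LipschitzWith.of_dist_le_mul fun z w => ?_
      rw [dist_eq_norm, Real.dist_eq]
      refine (hl z w).trans (le_of_eq ?_)
      change |z - w| / t = 1 / t * |z - w|
      ring
    exact this.continuous
  set Y : Set (Fin n → ℝ) := Set.pi univ (fun _ : Fin n => Icc (-4 * t) (4 * t)) with hY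
  set P : ℝ≥0∞ := ∫⁻ v in CB n, ‖trig S c v‖ₑ ^ q with hP
  set D : ℝ≥0∞ := ENNReal.ofReal (n * (C1 : ℝ) ^ n * 3 ^ n * t ^ (-(n : ℝ) / 2)) * l2 S c with hD
  set TI : ℝ≥0∞ := ∫⁻ α in CB n, ∫⁻ y : Fin n → ℝ, ‖TT t S (fun k => c k * ek k α) y‖ₑ ^ q
    with hTI
  have hpt : ∀ α y : Fin n → ℝ, ‖MM t S c α y‖ₑ ^ q ≤
      2 ^ (q - 1) * (‖TT t S (fun k => c k * ek k α) y‖ₑ ^ q + D ^ q) := by
    intro α y
    have h1 := point C1 hC1 t ht hb hl N hN hNt S c hS α y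
    have h2 : ‖MM t S c α y‖ₑ ≤ ‖TT t S (fun k => c k * ek k α) y‖ₑ + D := by
      have h3 : MM t S c α y = TT t S (fun k => c k * ek k α) y -
          (TT t S (fun k => c k * ek k α) y - MM t S c α y) := by ring
      calc ‖MM t S c α y‖ₑ = ‖TT t S (fun k => c k * ek k α) y -
          (TT t S (fun k => c k * ek k α) y - MM t S c α y)‖ₑ := by rw [← h3]
        _ ≤ ‖TT t S (fun k => c k * ek k α) y‖ₑ +
          ‖TT t S (fun k => c k * ek k α) y - MM t S c α y‖ₑ := enorm_sub_le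
        _ ≤ _ := by gcongr
    calc ‖MM t S c α y‖ₑ ^ q ≤ (‖TT t S (fun k => c k * ek k α) y‖ₑ + D) ^ q := by gcongr
      _ ≤ _ := ENNReal.rpow_add_le_mul_rpow_add_rpow _ _ hq1
  have h2top : (2 : ℝ≥0∞) ^ (q - 1) ≠ ∞ := by
    exact ENNReal.rpow_ne_top_of_nonneg (by linarith) (by norm_num)
  have hup : ∫⁻ α in CB n, ∫⁻ y in Y, ‖MM t S c α y‖ₑ ^ q ≤
      2 ^ (q - 1) * (TI + 2 ^ n * (ENNReal.ofReal (8 * t) ^ n * D ^ q)) := by
    calc ∫⁻ α in CB n, ∫⁻ y in Y, ‖MM t S c α y‖ₑ ^ q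
        ≤ ∫⁻ α in CB n, ∫⁻ y in Y,
          2 ^ (q - 1) * (‖TT t S (fun k => c k * ek k α) y‖ₑ ^ q + D ^ q) := by
          refine lintegral_mono fun α => lintegral_mono fun y => hpt α y
      _ = 2 ^ (q - 1) * ∫⁻ α in CB n, ∫⁻ y in Y,
          (‖TT t S (fun k => c k * ek k α) y‖ₑ ^ q + D ^ q) := by
          rw [← lintegral_const_mul' _ _ h2top]
          refine lintegral_congr fun α => ?_
          rw [lintegral_const_mul' _ _ h2top]
      _ = 2 ^ (q - 1) * ((∫⁻ α in CB n, ∫⁻ y in Y,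
          ‖TT t S (fun k => c k * ek k α) y‖ₑ ^ q) +
            2 ^ n * (ENNReal.ofReal (8 * t) ^ n * D ^ q)) := by
          congr 1
          have h3 : ∀ α : Fin n → ℝ, ∫⁻ y in Y,
              (‖TT t S (fun k => c k * ek k α) y‖ₑ ^ q + D ^ q) =
              (∫⁻ y in Y, ‖TT t S (fun k => c k * ek k α) y‖ₑ ^ q) +
                ENNReal.ofReal (8 * t) ^ n * D ^ q := by
            intro α
            rw [lintegral_add_right _ measurable_const, setLIntegral_const, hY, vol_Y, mul_comm (D ^ q)]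
          simp_rw [h3]
          rw [lintegral_add_right _ measurable_const, setLIntegral_const, vol_CB,
            mul_comm _ ((2 : ℝ≥0∞) ^ n)]
      _ ≤ _ := by
          gcongr
          refine lintegral_mono fun α => ?_
          exact setLIntegral_le_lintegral _ _
  rw [main_part q hq t ht hc S c] at hup
  have hlow' := hlow t ht
  -- error constant
  have herr : 2 ^ n * (ENNReal.ofReal (8 * t) ^ n * D ^ q) ≤
      ENNReal.ofReal (t ^ (n * (1 - q / 2))) * ((16 ^ n * C2 : ℝ≥0) * l2 S c) ^ q := by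
    have e1 : D = ENNReal.ofReal (t ^ (-(n : ℝ) / 2)) * ((C2 : ℝ≥0∞) * l2 S c) := by
      rw [hD, ENNReal.ofReal_mul (by positivity)]
      have : ENNReal.ofReal (n * (C1 : ℝ) ^ n * 3 ^ n) = (C2 : ℝ≥0∞) := by
        have e2 : (n * (C1 : ℝ) ^ n * 3 ^ n) = ((C2 : ℝ≥0) : ℝ) := by
          rw [hC2]; push_cast; rfl
        rw [e2, ENNReal.ofReal_coe_nnreal]
      rw [this]
      ring
    rw [e1, ENNReal.mul_rpow_of_nonneg _ _ hq0]
    have e3 : (2 : ℝ≥0∞) ^ n * (ENNReal.ofReal (8 * t) ^ n *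
        (ENNReal.ofReal (t ^ (-(n : ℝ) / 2)) ^ q * ((C2 : ℝ≥0∞) * l2 S c) ^ q)) =
        ENNReal.ofReal (t ^ (n * (1 - q / 2))) * (16 ^ n * ((C2 : ℝ≥0∞) * l2 S c) ^ q) := by
      have e4 : (2 : ℝ≥0∞) ^ n * ENNReal.ofReal (8 * t) ^ n *
          ENNReal.ofReal (t ^ (-(n : ℝ) / 2)) ^ q =
          ENNReal.ofReal (t ^ (n * (1 - q / 2))) * 16 ^ n := by
        have e5 : (2 : ℝ≥0∞) = ENNReal.ofReal 2 := by simp
        have e6 : (16 : ℝ≥0∞) = ENNReal.ofReal 16 := by simp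
        rw [e5, e6, ENNReal.ofReal_rpow_of_nonneg (by positivity) hq0,
          ← ENNReal.ofReal_pow (by norm_num), ← ENNReal.ofReal_pow (by positivity),
          ← ENNReal.ofReal_pow (by norm_num), ← ENNReal.ofReal_mul (by positivity),
          ← ENNReal.ofReal_mul (by positivity), ← ENNReal.ofReal_mul (by positivity)]
        congr 1
        have e7 : (t ^ (-(n : ℝ) / 2)) ^ q = t ^ (-(n : ℝ) / 2 * q) := by
          rw [← Real.rpow_mul ht0.le]
        have e8 : t ^ (n * (1 - q / 2) : ℝ) = t ^ n * t ^ (-(n : ℝ) / 2 * q) := by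
          rw [← Real.rpow_natCast t n, ← Real.rpow_add ht0]
          congr 1
          ring
        rw [e7, e8, mul_pow]
        have e9 : (16 : ℝ) ^ n = 2 ^ n * 8 ^ n := by rw [← mul_pow]; norm_num
        rw [e9]
        ring
      calc (2 : ℝ≥0∞) ^ n * (ENNReal.ofReal (8 * t) ^ n *
        (ENNReal.ofReal (t ^ (-(n : ℝ) / 2)) ^ q * ((C2 : ℝ≥0∞) * l2 S c) ^ q)) =
          ((2 : ℝ≥0∞) ^ n * ENNReal.ofReal (8 * t) ^ n *
          ENNReal.ofReal (t ^ (-(n : ℝ) / 2)) ^ q) * ((C2 : ℝ≥0∞) * l2 S c) ^ q := by ring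
        _ = _ := by rw [e4]; ring
    rw [e3]
    gcongr
    have e10 : (((16 ^ n * C2 : ℝ≥0) : ℝ≥0∞) * l2 S c) ^ q =
        ((16 : ℝ≥0∞) ^ n) ^ q * ((C2 : ℝ≥0∞) * l2 S c) ^ q := by
      rw [← ENNReal.mul_rpow_of_nonneg _ _ hq0]
      congr 1
      push_cast
      ring
    rw [e10]
    gcongr
    have e11 : (1 : ℝ≥0∞) ≤ 16 ^ n := one_le_pow₀ (by norm_num)
    calc (16 : ℝ≥0∞) ^ n = ((16 : ℝ≥0∞) ^ n) ^ (1 : ℝ) := (ENNReal.rpow_one _).symm
      _ ≤ ((16 : ℝ≥0∞) ^ n) ^ q := ENNReal.rpow_le_rpow_of_exponent_le e11 hq1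
  have hkey : ENNReal.ofReal (c1 * t ^ (1 - q / 2)) ^ n * P ≤
      2 ^ (q - 1) * (TI + ENNReal.ofReal (t ^ (n * (1 - q / 2))) *
        ((16 ^ n * C2 : ℝ≥0) * l2 S c) ^ q) := by
    calc ENNReal.ofReal (c1 * t ^ (1 - q / 2)) ^ n * P
        ≤ (∫⁻ y in Icc (-4 * t) (4 * t), ‖ph1 t y‖ₑ ^ q) ^ n * P := by gcongr
      _ ≤ _ := hup
      _ ≤ _ := by gcongr
  have hcoef : ENNReal.ofReal (c1 ^ n / 2 ^ (q - 1) * t ^ (n * (1 - q / 2))) =
      ENNReal.ofReal (2 ^ (-(q - 1))) * ENNReal.ofReal (c1 * t ^ (1 - q / 2)) ^ n := by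
    rw [← ENNReal.ofReal_pow (by positivity), ← ENNReal.ofReal_mul (by positivity)]
    congr 1
    rw [mul_pow, ← Real.rpow_natCast (t ^ (1 - q / 2)) n, ← Real.rpow_mul ht0.le,
      Real.rpow_neg (by norm_num)]
    have : (1 - q / 2) * (n : ℝ) = n * (1 - q / 2) := by ring
    rw [this]
    ring
  have hone : ENNReal.ofReal (2 ^ (-(q - 1))) * (2 : ℝ≥0∞) ^ (q - 1) = 1 := by
    have e5 : (2 : ℝ≥0∞) = ENNReal.ofReal 2 := by simp
    rw [e5, ENNReal.ofReal_rpow_of_pos (by norm_num), ← ENNReal.ofReal_mul (by positivity),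
      ← Real.rpow_add (by norm_num)]
    norm_num
  calc ENNReal.ofReal (c1 ^ n / 2 ^ (q - 1) * t ^ (n * (1 - q / 2))) * P
      = ENNReal.ofReal (2 ^ (-(q - 1))) * (ENNReal.ofReal (c1 * t ^ (1 - q / 2)) ^ n * P) := by
        rw [hcoef, mul_assoc]
    _ ≤ ENNReal.ofReal (2 ^ (-(q - 1))) * (2 ^ (q - 1) * (TI + ENNReal.ofReal (t ^ (n * (1 - q / 2))) *
        ((16 ^ n * C2 : ℝ≥0) * l2 S c) ^ q)) := by gcongr
    _ = _ := by rw [← mul_assoc, hone, one_mul]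

end Pool.Agent.W578.LS
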